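import Pool.Agent.Zk61.EU.OneH

/-!
# Two scalars in one direction; one directional derivative
-/

open MeasureTheory Set Filter
open scoped ContDiff Topology

set_option autoImplicit false

namespace Pool.Agent.Zk27.OC

open Pool.Agent.H708R2.EulerSign Pool.Agent.H708R2.EulerTypeI Pool.Agent.W786.Dir
  Pool.Agent.W786.Max Pool.Agent.Zk61.EU

variable {T : ℝ} {u : ℝ → V → V} {p : ℝ → V → ℝ} {e : ℝ → V}

/-- The gradient is bounded by the Hölder constant. -/
lemma gb_Nh (h : H459R3.NS.IsSol 0 T u p) {t : ℝ} (ht : t ∈ Ioo 0 T) :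
    Kt.GB (u t) (7 * Nh (u t)) := by
  set s := t / 2 with hs
  have hs0 : 0 < s := by have := ht.1; positivity
  have hsol := sc_sol h hs0
  have e1 : t - s + s = t := by ring
  have hI : t - s + s ∈ Ico 0 T := ⟨by rw [e1]; exact ht.1.le, by rw [e1]; exact ht.2⟩
  have hts : t - s ∈ Ioo 0 (T - s) := ⟨by rw [hs]; linarith [ht.1], by linarith [ht.2]⟩
  have hts' : t - s ∈ Ico 0 (T - s) := ⟨hts.1.le, hts.2⟩
  intro x i j
  have h1 := hg_sc h hI
  rw [e1] at h1
  have key := grad_le (v := scU s u (t - s)) (N := Nh (u t)) (γ := 1 / 4)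
    ((slice_two hsol hts).of_le (by norm_num)) (hsol.sol.periodic_u _ hts')
    (by linarith [one_le_Nh (u t)]) (by norm_num) (by norm_num) h1 ((2 * Real.pi) • x) i j
  rw [sc_grad h hI, unscale, e1, grad_pd (sol_diff h ⟨ht.1.le, ht.2⟩)] at key
  exact key

/-- Growth of the vorticity like a power follows from the growth of the third derivatives. -/
lemma growth (hT : 0 < T) (h : H459R3.NS.IsSol 0 T u p) {C k : ℝ}
    (hk : ∀ t ∈ Ioo 0 T, H459R3.EU.dsq (u t) ≤ C * (T - t) ^ (-k)) :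
    ∃ κ C' : ℝ, 0 ≤ κ ∧ ∀ t ∈ Ioo 0 T, H459R3.EU.dsq (u t) ≤ C' * (T - t) ^ (-k) ∧
      ∀ x, nrm (vort (u t) x) ≤ C' * (T - t) ^ (-κ) := by
  set K := max k 0 with hK
  set κ := K / 2 with hκd
  have hK0 : 0 ≤ K := le_max_right _ _
  have hκ : 0 ≤ κ := by positivity
  have hTk : 0 < T ^ (K - k) := Real.rpow_pos_of_pos hT _
  have hTκ : 0 < T ^ κ := Real.rpow_pos_of_pos hT _
  set A := |C| * T ^ (K - k) with hA
  have hA0 : 0 ≤ A := by positivity
  set c7 := 18 * Real.sqrt Pool.Agent.TH340.PS.C7 with hc7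
  have hc70 : 0 ≤ c7 := by positivity
  set C' := max |C| (28 * (T ^ κ + c7 * Real.sqrt A)) with hC'
  refine ⟨κ, C', hκ, fun t ht => ⟨?_, fun x => ?_⟩⟩
  · refine (hk t ht).trans ?_
    have h1 : 0 ≤ (T - t) ^ (-k) := Real.rpow_nonneg (by linarith [ht.2]) _
    exact mul_le_mul_of_nonneg_right ((le_abs_self _).trans (le_max_left _ _)) h1
  · have hTt : 0 < T - t := by linarith [ht.2]
    have hTt' : T - t ≤ T := by linarith [ht.1]
    have hs0 : 0 ≤ (T - t) ^ (-κ) := Real.rpow_nonneg hTt.le _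
    have h1 := vort_le_gb h ⟨ht.1.le, ht.2⟩ (gb_Nh h ht) x
    have h2 : 1 ≤ T ^ κ * (T - t) ^ (-κ) := by
      have h3 : (T - t) ^ κ ≤ T ^ κ := Real.rpow_le_rpow hTt.le hTt' hκ
      rw [Real.rpow_neg hTt.le, ← div_eq_mul_inv, le_div_iff₀ (Real.rpow_pos_of_pos hTt _), one_mul]
      exact h3
    have h3 : H459R3.EU.dsq (u t) ≤ A * (T - t) ^ (-K) := by
      have h4 : (T - t) ^ (-k) ≤ T ^ (K - k) * (T - t) ^ (-K) := by
        have h5 : (T - t) ^ (-k) = (T - t) ^ (K - k) * (T - t) ^ (-K) := by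
          rw [← Real.rpow_add hTt]
          congr 1
          ring
        rw [h5]
        have h6 : (T - t) ^ (K - k) ≤ T ^ (K - k) :=
          Real.rpow_le_rpow hTt.le hTt' (by have := le_max_left k 0; linarith)
        have h7 : 0 ≤ (T - t) ^ (-K) := Real.rpow_nonneg hTt.le _
        gcongr
      have h5 : 0 ≤ (T - t) ^ (-k) := Real.rpow_nonneg hTt.le _
      calc H459R3.EU.dsq (u t) ≤ C * (T - t) ^ (-k) := hk t ht
        _ ≤ |C| * (T - t) ^ (-k) := mul_le_mul_of_nonneg_right (le_abs_self _) h5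
        _ ≤ |C| * (T ^ (K - k) * (T - t) ^ (-K)) := by gcongr
        _ = A * (T - t) ^ (-K) := by rw [hA]; ring
    have h4 : Real.sqrt (H459R3.EU.dsq (u t)) ≤ Real.sqrt A * (T - t) ^ (-κ) := by
      refine (Real.sqrt_le_sqrt h3).trans (le_of_eq ?_)
      rw [Real.sqrt_mul hA0]
      congr 1
      have h5 : (T - t) ^ (-K) = (T - t) ^ (-κ) * (T - t) ^ (-κ) := by
        rw [← Real.rpow_add hTt]
        congr 1
        rw [hκd]
        ring
      rw [h5]
      exact Real.sqrt_mul_self hs0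
    have h5 : Nh (u t) ≤ (T ^ κ + c7 * Real.sqrt A) * (T - t) ^ (-κ) := by
      have h6 : c7 * Real.sqrt (H459R3.EU.dsq (u t)) ≤ c7 * (Real.sqrt A * (T - t) ^ (-κ)) := by
        gcongr
      have h7 : Nh (u t) = 1 + c7 * Real.sqrt (H459R3.EU.dsq (u t)) := rfl
      rw [h7]
      nlinarith
    calc nrm (vort (u t) x) ≤ 4 * (7 * Nh (u t)) := h1
      _ = 28 * Nh (u t) := by ring
      _ ≤ 28 * ((T ^ κ + c7 * Real.sqrt A) * (T - t) ^ (-κ)) := by gcongr
      _ = (28 * (T ^ κ + c7 * Real.sqrt A)) * (T - t) ^ (-κ) := by ring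
      _ ≤ C' * (T - t) ^ (-κ) := mul_le_mul_of_nonneg_right (le_max_right _ _) hs0

/-- The stretching of a component is the vorticity times the directional derivative. -/
lemma dot_mulVec_cv (A : Matrix (Fin 3) (Fin 3) ℝ) (w : V) :
    w ⬝ᵥ A.mulVec (cv A) = cv A ⬝ᵥ A.mulVec w := by
  simp only [cv, dotProduct, Matrix.mulVec, Fin.sum_univ_three, Matrix.cons_val_zero,
    Matrix.cons_val_one, Matrix.cons_val_two, Matrix.head_cons, Matrix.tail_cons]
  ring

/-- A bound of one directional derivative everywhere gives the conditions at two points and on a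
disc. -/
lemma twoPt_of_dir (h : H459R3.NS.IsSol 0 T u p) {C κ : ℝ} (hC : 0 ≤ C) {t : ℝ} (ht : t ∈ Ioo 0 T)
    (hω : ∀ x, nrm (vort (u t) x) ≤ C * (T - t) ^ (-κ)) {a : ℝ → ℝ} (he : nrm (e t) = 1)
    (h1 : nrm (deriv e t) ≤ a t)
    (h2 : ∀ x, nrm ((grad (u t) x).mulVec (e t)) ≤ a t) (lam R : ℝ → ℝ) :
    TwoPt T κ u e (fun t => (2 + 2 * C) * a t) lam R t := by
  have hI : t ∈ Ico 0 T := ⟨ht.1.le, ht.2⟩
  have ha0 : 0 ≤ a t := (nrm_nonneg _).trans h1
  obtain ⟨z, hz⟩ := exists_compMax h e hI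
  obtain ⟨x, hx⟩ := exists_maxPt h hI
  have hCa : 0 ≤ C * a t := by positivity
  refine ⟨by nlinarith, ⟨z, hz, fun _ => ?_⟩, x, hx, fun y _ _ => ?_⟩
  · have h4 := hω z
    have h5 : 0 ≤ (T - t) ^ (-κ) := Real.rpow_nonneg (by linarith [ht.2]) _
    have h6 : vort (u t) z = cv (grad (u t) z) := vort_eq _ _
    have h7 : e t ⬝ᵥ (grad (u t) z).mulVec (vort (u t) z)
        = vort (u t) z ⬝ᵥ (grad (u t) z).mulVec (e t) := by
      rw [h6]
      exact dot_mulVec_cv _ _
    rw [h7]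
    have h8 := h2 z
    have h9 := nrm_nonneg ((grad (u t) z).mulVec (e t))
    calc _ ≤ nrm (vort (u t) z) * nrm ((grad (u t) z).mulVec (e t)) := dot_le _ _
      _ ≤ (C * (T - t) ^ (-κ)) * a t := by gcongr
      _ = C * a t * (T - t) ^ (-κ) := by ring
      _ ≤ (2 + 2 * C) * a t * (T - t) ^ (-κ) := by
          refine mul_le_mul_of_nonneg_right ?_ h5
          nlinarith
  · refine (dot_le _ _).trans ?_
    rw [he, one_mul]
    have := h2 y
    simp only
    nlinarith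

end Pool.Agent.Zk27.OC
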