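import Pool.Agent.Zk27.OC.A

/-!
# Two scalars in one direction, without any growth assumption
-/

open MeasureTheory Set Filter
open scoped ContDiff Topology

set_option autoImplicit false

namespace Pool.Agent.Zk27.OC

open Pool.Agent.H708R2.EulerSign Pool.Agent.H708R2.EulerTypeI Pool.Agent.W786.Dir
  Pool.Agent.W786.Max Pool.Agent.Zk61.EU

variable {T : ℝ} {u : ℝ → V → V} {p : ℝ → V → ℝ}

/-- The constant of the logarithm. -/
noncomputable def cz : ℝ := 5 * (Real.log (1 + 18 * Real.sqrt Pool.Agent.TH340.PS.C7) + 1)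

lemma cz_pos : 0 < cz := by
  have h1 := Real.sqrt_nonneg Pool.Agent.TH340.PS.C7
  have h2 : 0 ≤ Real.log (1 + 18 * Real.sqrt Pool.Agent.TH340.PS.C7) :=
    Real.log_nonneg (by linarith)
  unfold cz
  positivity

/-- The absolute constant. -/
noncomputable def eta : ℝ := 1 / (2 * Cg * (1 + cz))

lemma eta_pos : 0 < eta := by
  have h1 := Cg_pos
  have h2 := cz_pos
  unfold eta
  positivity

/-- The weight. -/
noncomputable def wt (v : V → V) : ℝ := 1 + Real.log (1 + H459R3.EU.dsq v)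

lemma one_le_wt (v : V → V) : 1 ≤ wt v := by
  have := Real.log_nonneg (show (1 : ℝ) ≤ 1 + H459R3.EU.dsq v by
    linarith [H459R3.EU.dsq_nonneg v])
  unfold wt
  linarith

/-- The velocity is bounded at each time. -/
lemma vel_bdd (h : H459R3.NS.IsSol 0 T u p) {t : ℝ} (ht : t ∈ Ioo 0 T) :
    ∃ m : ℝ, ∀ x y, nrm (u t y - u t x) ≤ m := by
  have hN := one_le_Nh (u t)
  refine ⟨2 * (2 * ((3 / 2 + Real.sqrt (H459R3.NS.energy (u 0))) * (7 * Nh (u t)) ^ (3 / 5 : ℝ))),
    fun x y => nrm_le_comp fun i => ?_⟩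
  have h1 := fun z i => vel_gb h ⟨ht.1.le, ht.2⟩ (B := 7 * Nh (u t)) (by linarith) (gb_Nh h ht) z i
  rw [Pi.sub_apply]
  have := abs_sub (u t y i) (u t x i)
  linarith [h1 y i, h1 x i]

/-- **The criterion with a logarithmic weight**, without any growth assumption. -/
theorem disc_crit (hT : 0 < T) (h : H459R3.NS.IsSol 0 T u p) {a R M : ℝ → ℝ} {C : ℝ}
    (hai : ∀ c ∈ Ioo 0 T, IntegrableOn (fun t => a t * wt (u t)) (Ioo 0 c))
    (haC : ∀ c ∈ Ioo 0 T, ∫ t in Ioo 0 c, a t * wt (u t) ≤ C + eta * Real.log (1 / (T - c)))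
    (hR : ∀ t ∈ Ioo 0 T, 0 < R t) (hM : ∀ t ∈ Ioo 0 T, ∀ x y, nrm (u t y - u t x) ≤ M t)
    (hRi : IntegrableOn (fun t => M t / R t) (Ioo 0 T))
    (hyp : ∀ᵐ t, t ∈ Ioo 0 T → ∃ x e, IsMaxPt u t x ∧ nrm e = 1 ∧
      ∀ y, e ⬝ᵥ (y - x) = 0 → nrm (y - x) < R t → |vort (u t) y ⬝ᵥ e| ≤ a t ∧
        |e ⬝ᵥ (grad (u t) y).mulVec e| ≤ a t) :
    ∃ M, ∀ t ∈ Ico 0 T, H459R3.EU.dsq (u t) ≤ M := by
  have hCg := Cg_pos
  have hcz := cz_pos
  set t₁ := max 0 (T - 1) with ht₁
  have h10 : 0 ≤ t₁ := le_max_left _ _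
  have h1T : t₁ < T := max_lt hT (by linarith)
  have hin : ∀ t ∈ Ioo t₁ T, t ∈ Ioo 0 T := fun t ht => ⟨h10.trans_lt ht.1, ht.2⟩
  -- nonnegativity
  have hpos : ∀ᵐ t, t ∈ Ioo 0 T → 0 ≤ a t := by
    filter_upwards [hyp] with t ht htI
    obtain ⟨x, e, -, -, he⟩ := ht htI
    exact (abs_nonneg _).trans (he x (by simp)
      (by rw [sub_self]; simpa [nrm] using hR t htI)).1
  have habs : ∀ c ∈ Ioo 0 T, ∀ s : ℝ, 0 ≤ s →
      ∫ t in Ioo s c, |a t| * wt (u t) ≤ ∫ t in Ioo 0 c, a t * wt (u t) := by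
    intro c hc s hs
    have e1 : ∫ t in Ioo 0 c, a t * wt (u t) = ∫ t in Ioo 0 c, |a t| * wt (u t) := by
      refine setIntegral_congr_ae measurableSet_Ioo ?_
      filter_upwards [hpos] with t ht htI
      rw [abs_of_nonneg (ht ⟨htI.1, htI.2.trans hc.2⟩)]
    rw [e1]
    refine setIntegral_mono_set ?_ ?_ (Ioo_subset_Ioo_left hs).eventuallyLE
    · have h1 : IntegrableOn (fun t => |a t * wt (u t)|) (Ioo 0 c) := (hai c hc).abs
      refine h1.congr_fun (fun t _ => ?_) measurableSet_Ioo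
      simp only
      rw [abs_mul, abs_of_nonneg (zero_le_one.trans (one_le_wt _))]
    · exact Eventually.of_forall fun t =>
        mul_nonneg (abs_nonneg _) (zero_le_one.trans (one_le_wt _))
  have hLint : ∀ c ∈ Ioo 0 T, ∀ s : ℝ, 0 ≤ s →
      IntegrableOn (fun t => |a t| * (1 + ((1 + cz) * wt (u t) - 1))) (Ioo s c) := by
    intro c hc s hs
    have h1 : IntegrableOn (fun t => (1 + cz) * |a t * wt (u t)|) (Ioo s c) :=
      (((hai c hc).mono_set (Ioo_subset_Ioo_left hs)).abs).const_mul _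
    refine h1.congr_fun (fun t _ => ?_) measurableSet_Ioo
    simp only
    rw [abs_mul, abs_of_nonneg (zero_le_one.trans (one_le_wt _))]
    ring
  refine finish0 h (t₁ := t₁) ⟨h10, h1T⟩ (by have := le_max_right 0 (T - 1); linarith)
    (b := fun t => |a t|) (L := fun t => (1 + cz) * wt (u t) - 1) (R := R)
    (M := M) (fun t ht => hR t (hin t ht)) (fun t ht x y => hM t (hin t ht) x y)
    (hRi.mono_set (Ioo_subset_Ioo_left h10)) (fun t ht => abs_nonneg _)
    (fun t ht => ?_) (fun c hc => ?_) (C' := (1 + cz) * C) (η := (1 + cz) * eta) ?_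
    (fun c hc => ?_) ?_
  · have h1 := ell_dsq (u t)
    have h2 := one_le_wt (u t)
    have h3 : 5 * (Real.log (1 + 18 * Real.sqrt Pool.Agent.TH340.PS.C7) + 1)
        * (1 + Real.log (1 + H459R3.EU.dsq (u t))) = cz * wt (u t) := rfl
    rw [h3] at h1
    show _ ≤ (1 + cz) * wt (u t) - 1
    linarith
  · exact hLint c ⟨h10.trans_lt hc.1, hc.2⟩ t₁ h10
  · unfold eta
    have : Cg * ((1 + cz) * (1 / (2 * Cg * (1 + cz)))) = 1 / 2 := by
      have h1 : 1 + cz ≠ 0 := by linarith
      field_simp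
    exact this.le
  · have hcI : c ∈ Ioo 0 T := ⟨h10.trans_lt hc.1, hc.2⟩
    have e1 : ∫ t in Ioo t₁ c, |a t| * (1 + ((1 + cz) * wt (u t) - 1))
        = (1 + cz) * ∫ t in Ioo t₁ c, |a t| * wt (u t) := by
      rw [← integral_const_mul]
      refine integral_congr_ae (Eventually.of_forall fun t => ?_)
      simp only
      ring
    rw [e1]
    have h1 := (habs c hcI t₁ h10).trans (haC c hcI)
    have h2 : Real.log (1 / (T - c)) = Lf T c := by
      unfold Lf
      rw [one_div, Real.log_inv]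
    rw [h2] at h1
    calc (1 + cz) * ∫ t in Ioo t₁ c, |a t| * wt (u t) ≤ (1 + cz) * (C + eta * Lf T c) := by
          gcongr
      _ = _ := by ring
  · filter_upwards [hyp] with t ht htI
    obtain ⟨x, e, hx, he, hd⟩ := ht (hin t htI)
    exact ⟨x, e, hx, he, fun y h1 h2 => ⟨(hd y h1 h2).1.trans (le_abs_self _),
      (hd y h1 h2).2.trans (le_abs_self _)⟩⟩

/-- The case of bounds everywhere. -/
theorem log_crit (hT : 0 < T) (h : H459R3.NS.IsSol 0 T u p) {a : ℝ → ℝ} {C : ℝ}
    (hai : ∀ c ∈ Ioo 0 T, IntegrableOn (fun t => a t * wt (u t)) (Ioo 0 c))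
    (haC : ∀ c ∈ Ioo 0 T, ∫ t in Ioo 0 c, a t * wt (u t) ≤ C + eta * Real.log (1 / (T - c)))
    (hyp : ∀ᵐ t, t ∈ Ioo 0 T → ∃ e, nrm e = 1 ∧ ∀ y, |vort (u t) y ⬝ᵥ e| ≤ a t ∧
        |e ⬝ᵥ (grad (u t) y).mulVec e| ≤ a t) :
    ∃ M, ∀ t ∈ Ico 0 T, H459R3.EU.dsq (u t) ≤ M := by
  choose! M hM using fun t (ht : t ∈ Ioo 0 T) => vel_bdd h ht
  have hM0 : ∀ t ∈ Ioo 0 T, 0 ≤ M t := fun t ht => (nrm_nonneg _).trans (hM t ht 0 0)
  refine disc_crit hT h (R := fun t => M t + 1) (M := fun t => M t + 1) hai haC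
    (fun t ht => ?_) (fun t ht x y => ?_) ?_ ?_
  · have := hM0 t ht
    show 0 < M t + 1
    linarith
  · have := hM t ht x y
    show _ ≤ M t + 1
    linarith
  · have h1 : IntegrableOn (fun _ : ℝ => (1 : ℝ)) (Ioo 0 T) := integrableOn_const (by simp)
    refine h1.congr_fun (fun t ht => ?_) measurableSet_Ioo
    have := hM0 t ht
    exact (div_self (show M t + 1 ≠ 0 by linarith)).symm
  · filter_upwards [hyp] with t ht htI
    obtain ⟨e, he, hd⟩ := ht htI
    obtain ⟨x, hx⟩ := exists_maxPt h ⟨htI.1.le, htI.2⟩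
    exact ⟨x, e, hx, he, fun y _ _ => hd y⟩

/-- The weight for power growth. -/
lemma wt_le {C k : ℝ} {t : ℝ} (ht : t < T)
    (hk : H459R3.EU.dsq (u t) ≤ C * (T - t) ^ (-k)) :
    wt (u t) ≤ (1 + Real.log (1 + |C|)) + |k| * |Real.log (T - t)| := by
  have hTt : 0 < T - t := by linarith
  have hd := H459R3.EU.dsq_nonneg (u t)
  set s := (T - t) ^ (-k) with hs
  have hs0 : 0 < s := Real.rpow_pos_of_pos hTt _
  have h1 : 1 + H459R3.EU.dsq (u t) ≤ (1 + |C|) * Real.exp |Real.log s| := by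
    have h2 : s ≤ Real.exp |Real.log s| := by
      calc s = Real.exp (Real.log s) := (Real.exp_log hs0).symm
        _ ≤ _ := Real.exp_le_exp.2 (le_abs_self _)
    have h3 : 1 ≤ Real.exp |Real.log s| := Real.one_le_exp (abs_nonneg _)
    have h4 : C * s ≤ |C| * Real.exp |Real.log s| :=
      (mul_le_mul_of_nonneg_right (le_abs_self _) hs0.le).trans
        (mul_le_mul_of_nonneg_left h2 (abs_nonneg _))
    linarith
  have h2 : Real.log (1 + H459R3.EU.dsq (u t)) ≤ Real.log (1 + |C|) + |Real.log s| := by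
    have := Real.log_le_log (by linarith) h1
    rwa [Real.log_mul (by positivity) (Real.exp_pos _).ne', Real.log_exp] at this
  have h3 : Real.log s = -k * Real.log (T - t) := Real.log_rpow hTt _
  have h4 : |Real.log s| = |k| * |Real.log (T - t)| := by rw [h3, abs_mul, abs_neg]
  unfold wt
  linarith

/-- Power growth and an integrable function give the logarithmic bound. -/
theorem budget (hT : 0 < T) (h : H459R3.NS.IsSol 0 T u p) {a : ℝ → ℝ} {C k : ℝ}
    (hk : ∀ t ∈ Ioo 0 T, H459R3.EU.dsq (u t) ≤ C * (T - t) ^ (-k))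
    (ha : IntegrableOn a (Ioo 0 T)) {η : ℝ} (hη : 0 < η) :
    (∀ c ∈ Ioo 0 T, IntegrableOn (fun t => a t * wt (u t)) (Ioo 0 c)) ∧
    ∃ C', ∀ c ∈ Ioo 0 T, ∫ t in Ioo 0 c, a t * wt (u t) ≤ C' + η * Real.log (1 / (T - c)) := by
  have hw : ContinuousOn (fun t => wt (u t)) (Ico 0 T) := by
    have h1 := H459R3.EU.dsq_continuousOn h
    refine continuousOn_const.add ((continuousOn_const.add h1).log fun t _ => ?_)
    have h2 : 0 < 1 + H459R3.EU.dsq (u t) := by linarith [H459R3.EU.dsq_nonneg (u t)]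
    exact h2.ne'
  have hint : ∀ b : ℝ → ℝ, IntegrableOn b (Ioo 0 T) → ∀ c ∈ Ioo 0 T,
      IntegrableOn (fun t => b t * wt (u t)) (Ioo 0 c) := by
    intro b hb c hc
    have h1 : IntegrableOn b (Icc 0 c) := by
      rw [integrableOn_Icc_iff_integrableOn_Ioo]
      exact hb.mono_set (Ioo_subset_Ioo_right hc.2.le)
    exact (h1.mul_continuousOn (hw.mono (Icc_subset_Ico_right hc.2)) isCompact_Icc).mono_set
      Ioo_subset_Icc_self
  have habs : IntegrableOn (fun t => |a t|) (Ioo 0 T) := ha.abs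
  refine ⟨hint a ha, ?_⟩
  set δ := η / (1 + |k|) with hδ
  have hδ0 : 0 < δ := by positivity
  obtain ⟨s, hs1, hs2⟩ := ((tail_small hT ha hδ0).and
    (Ioo_mem_nhdsLT (show max 0 (T - 1) < T from max_lt hT (by linarith)))).exists
  have hs0 : 0 < s := (le_max_left _ _).trans_lt hs2.1
  have hsT : s < T := hs2.2
  have hsT1 : T - 1 < s := (le_max_right _ _).trans_lt hs2.1
  have htail : ∫ t in Ioo s T, |a t| ≤ δ := by
    have h1 : ∫ t in s..T, |a t| = ∫ t in Ioo s T, |a t| := by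
      rw [intervalIntegral.integral_of_le hsT.le, integral_Ioc_eq_integral_Ioo]
    rw [← h1]
    exact hs1.le
  set A := 1 + Real.log (1 + |C|) with hA
  have hA0 : 0 ≤ A := by
    have := Real.log_nonneg (show (1 : ℝ) ≤ 1 + |C| by linarith [abs_nonneg C])
    linarith
  set C₁ := ∫ t in Ioo 0 s, |a t| * wt (u t) with hC₁
  have hwn : ∀ t, 0 ≤ |a t| * wt (u t) := fun t =>
    mul_nonneg (abs_nonneg _) (zero_le_one.trans (one_le_wt _))
  have hC₁0 : 0 ≤ C₁ := setIntegral_nonneg measurableSet_Ioo fun t _ => hwn t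
  refine ⟨C₁ + δ * A + η * |Real.log T|, fun c hc => ?_⟩
  have hTc : 0 < T - c := by linarith [hc.2]
  have e1 : Real.log (1 / (T - c)) = -Real.log (T - c) := by rw [one_div, Real.log_inv]
  have hlow : -|Real.log T| ≤ Real.log (1 / (T - c)) := by
    rw [e1]
    have h1 : Real.log (T - c) ≤ Real.log T := Real.log_le_log hTc (by linarith [hc.1])
    have h2 := le_abs_self (Real.log T)
    linarith
  have h1 : ∫ t in Ioo 0 c, a t * wt (u t) ≤ ∫ t in Ioo 0 c, |a t| * wt (u t) := by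
    refine setIntegral_mono_on (hint a ha c hc) (hint _ habs c hc) measurableSet_Ioo
      fun t _ => mul_le_mul_of_nonneg_right (le_abs_self _) (zero_le_one.trans (one_le_wt _))
  refine h1.trans ?_
  rcases le_or_gt c s with hcs | hcs
  · have h2 : ∫ t in Ioo 0 c, |a t| * wt (u t) ≤ C₁ :=
      setIntegral_mono_set (hint _ habs s ⟨hs0, hsT⟩) (Eventually.of_forall hwn)
        (Ioo_subset_Ioo_right hcs).eventuallyLE
    have h3 : 0 ≤ δ * A := by positivity
    have h4 : -(η * |Real.log T|) ≤ η * Real.log (1 / (T - c)) := by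
      have := mul_le_mul_of_nonneg_left hlow hη.le
      linarith
    linarith
  · have hsub : Ioo s c ⊆ Ioo 0 c := Ioo_subset_Ioo_left hs0.le
    have i1 := hint _ habs c hc
    have h2 : ∫ t in Ioo 0 c, |a t| * wt (u t)
        = C₁ + ∫ t in Ioo s c, |a t| * wt (u t) := by
      have j1 : IntervalIntegrable (fun t => |a t| * wt (u t)) volume 0 s :=
        (intervalIntegrable_iff_integrableOn_Ioo_of_le hs0.le).2
          (i1.mono_set (Ioo_subset_Ioo_right hcs.le))
      have j2 : IntervalIntegrable (fun t => |a t| * wt (u t)) volume s c :=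
        (intervalIntegrable_iff_integrableOn_Ioo_of_le hcs.le).2 (i1.mono_set hsub)
      have j3 := intervalIntegral.integral_add_adjacent_intervals j1 j2
      rw [intervalIntegral.integral_of_le hs0.le, intervalIntegral.integral_of_le hcs.le,
        intervalIntegral.integral_of_le hc.1.le, integral_Ioc_eq_integral_Ioo,
        integral_Ioc_eq_integral_Ioo, integral_Ioc_eq_integral_Ioo] at j3
      exact j3.symm
    set lam := Real.log (1 / (T - c)) with hlam
    have hlam0 : 0 ≤ lam := by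
      rw [e1]
      have := Real.log_nonpos hTc.le (show T - c ≤ 1 by linarith)
      linarith
    have h3 : ∫ t in Ioo s c, |a t| * wt (u t) ≤ ∫ t in Ioo s c, |a t| * (A + |k| * lam) := by
      refine setIntegral_mono_on (i1.mono_set hsub)
        ((habs.mono_set (Ioo_subset_Ioo hs0.le hc.2.le)).mul_const _) measurableSet_Ioo
        fun t ht => ?_
      refine mul_le_mul_of_nonneg_left ?_ (abs_nonneg _)
      have htT : t < T := ht.2.trans hc.2
      refine (wt_le htT (hk t ⟨hs0.trans ht.1, htT⟩)).trans ?_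
      have h5 : |Real.log (T - t)| ≤ lam := by
        have h6 : Real.log (T - t) ≤ 0 :=
          Real.log_nonpos (by linarith) (by linarith [ht.1])
        rw [abs_of_nonpos h6, e1]
        have := Real.log_le_log hTc (show T - c ≤ T - t by linarith [ht.2])
        linarith
      gcongr
    have h4 : ∫ t in Ioo s c, |a t| * (A + |k| * lam) ≤ δ * (A + |k| * lam) := by
      rw [integral_mul_const]
      have h5 : ∫ t in Ioo s c, |a t| ≤ ∫ t in Ioo s T, |a t| :=
        setIntegral_mono_set (habs.mono_set (Ioo_subset_Ioo_left hs0.le))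
          (Eventually.of_forall fun t => abs_nonneg _) (Ioo_subset_Ioo_right hc.2.le).eventuallyLE
      exact mul_le_mul_of_nonneg_right (h5.trans htail) (by positivity)
    have h5 : δ * |k| ≤ η := by
      rw [hδ, div_mul_eq_mul_div, div_le_iff₀ (by positivity)]
      nlinarith [abs_nonneg k]
    have h6 : δ * (A + |k| * lam) ≤ δ * A + η * lam := by
      have := mul_le_mul_of_nonneg_right h5 hlam0
      linarith
    have h7 : 0 ≤ η * |Real.log T| := by positivity
    linarith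

end Pool.Agent.Zk27.OC
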